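import Mathlib

set_option maxHeartbeats 400000

namespace Pool.Agent.H.MP_26f537_al

open WithZero Polynomial TensorProduct

theorem ext_der {F S T : Type} [CommRing F] [CommRing S] [CommRing T] [Algebra F S] [Algebra S T]
    [Algebra F T] [IsScalarTower F S T] [Algebra.FormallyEtale S T] (d : Derivation F S T) :
    ∃ D : Derivation F T T, ∀ s, D (algebraMap S T s) = d s := by
  let l : Ω[S⁄F] →ₗ[S] T := d.liftKaehlerDifferential
  let l2 : T ⊗[S] Ω[S⁄F] →ₗ[T] T := l.liftBaseChange T
  let l3 : Ω[T⁄F] →ₗ[T] T :=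
    l2 ∘ₗ (KaehlerDifferential.tensorKaehlerEquivOfFormallyEtale F S T).symm.toLinearMap
  refine ⟨l3.compDer (KaehlerDifferential.D F T), fun s => ?_⟩
  simp [l3, l2, l, KaehlerDifferential.tensorKaehlerEquivOfFormallyEtale_symm_D_algebraMap]

/-- a derivation killing `k` is a `k`-derivation -/
def toK {F L : Type} (k : Type) [CommRing F] [CommRing k] [CommRing L] [Algebra F L] [Algebra k L]
    (D : Derivation F L L) (h : ∀ a : k, D (algebraMap k L a) = 0) : Derivation k L L :=
  Derivation.mk'
    { toFun := D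
      map_add' := fun x y => map_add D x y
      map_smul' := fun a x => by
        simp [Algebra.smul_def, h] }
    (fun a b => D.leibniz a b)

theorem toK_ap {F L : Type} (k : Type) [CommRing F] [CommRing k] [CommRing L] [Algebra F L]
    [Algebra k L] (D : Derivation F L L) (h : ∀ a : k, D (algebraMap k L a) = 0) (x : L) :
    toK k D h x = D x := rfl

theorem der_int {k L : Type} [Field k] [CharZero k] [Field L] [Algebra k L]
    (D : Derivation k L L) {x : L} (hx : IsIntegral k x) : D x = 0 := by
  have h1 := D.map_aeval (minpoly k x) x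
  rw [minpoly.aeval, map_zero] at h1
  have hs : (minpoly k x).Separable := (minpoly.irreducible hx).separable
  have h2 := hs.aeval_derivative_ne_zero (minpoly.aeval k x)
  exact (smul_eq_zero.1 h1.symm).resolve_left h2

theorem val_res {F L : Type} [Field L] [CommRing F] [Algebra F L] (v : Valuation L ℤᵐ⁰)
    (d : Derivation F L L) (Δ w : L) (hw : v w = exp (-1))
    (h : ∀ x, v x ≤ 1 → v (Δ * d x) ≤ 1) (ξ : L) (hξ : ξ ≠ 0) :
    v (Δ * w * (d ξ / ξ) + (log (v ξ) : ℤ) * (Δ * d w)) < 1 := by
  have hw0 : w ≠ 0 := by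
    intro e
    rw [e, map_zero] at hw
    exact exp_ne_zero hw.symm
  have hv0 : v ξ ≠ 0 := by simpa using hξ
  set n := log (v ξ) with hn
  have hu : v (ξ * w ^ n) = 1 := by
    rw [map_mul, map_zpow₀, hw, ← exp_log hv0, ← hn, ← exp_zsmul, ← exp_add]
    simp
  have e : Δ * w * (d ξ / ξ) + (n : L) * (Δ * d w) = w * (Δ * d (ξ * w ^ n)) / (ξ * w ^ n) := by
    have := zpow_ne_zero n hw0
    rw [d.leibniz, d.leibniz_zpow, zpow_sub₀ hw0]
    simp only [smul_eq_mul, zsmul_eq_mul, zpow_one]
    field_simp
    ring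
  rw [e, map_div₀, hu, div_one, map_mul, hw]
  calc exp (-1 : ℤ) * v (Δ * d (ξ * w ^ n)) ≤ exp (-1 : ℤ) * 1 := by
        gcongr
        exact h _ hu.le
    _ < 1 := by
        rw [mul_one, ← exp_zero, exp_lt_exp]
        norm_num

theorem val_int {k L : Type} [Field k] [Field L] [Algebra k L] (v : Valuation L ℤᵐ⁰)
    (S : Subalgebra k L) (hS : ∀ x ∈ S, v x ≤ 1) {x : L} (hx : IsIntegral S x) : v x ≤ 1 := by
  let φ : S →+* v.integer := (S.val.toRingHom).codRestrict _ (fun a => hS _ a.2)
  have : IsIntegral v.integer x := hx.map_of_comp_eq φ (RingHom.id L) (by ext; rfl)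
  exact (Valuation.integer.integers v).mem_of_integral this

theorem deg_le {k L : Type} [Field k] [Field L] [Algebra k L] {Y : L} (hY : Transcendental k Y)
    {p q s t : k[X]} (ht : t ≠ 0) (h : aeval Y⁻¹ t * aeval Y p = aeval Y s * aeval Y⁻¹ q) :
    p.natDegree ≤ s.natDegree + t.natDegree := by
  have hY0 : Y ≠ 0 := by
    rintro rfl
    exact hY isAlgebraic_zero
  have hZ : Transcendental k Y⁻¹ := fun h => hY (IsAlgebraic.inv_iff.1 h)
  letI := invertibleOfNonzero hY0
  have r : ∀ f : k[X], aeval Y f = aeval Y⁻¹ f.reverse * Y ^ f.natDegree := by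
    intro f
    have := eval₂_reverse_mul_pow (algebraMap k L) Y f
    rw [invOf_eq_inv] at this
    simp only [aeval_def, this]
  rcases eq_or_ne p 0 with rfl | hp
  · simp
  have e : t * p.reverse * X ^ s.natDegree = X ^ p.natDegree * (s.reverse * q) := by
    apply transcendental_iff_injective.1 hZ
    rw [r p, r s] at h
    simp only [map_mul, map_pow, aeval_X, inv_pow]
    generalize aeval Y⁻¹ t = a at *
    generalize aeval Y⁻¹ p.reverse = b at *
    generalize aeval Y⁻¹ s.reverse = c at *
    generalize aeval Y⁻¹ q = d at *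
    field_simp
    linear_combination h
  have hp' : p.reverse ≠ 0 := by simpa using hp
  have h1 : (t * p.reverse * X ^ s.natDegree).natTrailingDegree =
      t.natTrailingDegree + s.natDegree := by
    rw [natTrailingDegree_mul (mul_ne_zero ht hp') (by simp), natTrailingDegree_mul ht hp',
      natTrailingDegree_reverse, natTrailingDegree_X_pow, add_zero]
  have h0 : s.reverse * q ≠ 0 := by
    intro h0
    rw [h0, mul_zero] at e
    exact mul_ne_zero (mul_ne_zero ht hp') (by simp) e
  rw [e, natTrailingDegree_mul (by simp) h0, natTrailingDegree_X_pow] at h1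
  have := natTrailingDegree_le_natDegree t
  omega

end Pool.Agent.H.MP_26f537_al
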