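import Pool.Agent.H.MP_26f537_al.A

set_option maxHeartbeats 400000

namespace Pool.Agent.H.MP_26f537_al

open WithZero Polynomial IntermediateField IntermediateField.algebraAdjoinAdjoin IsDedekindDomain

theorem den_fg {A L : Type} [CommRing A] [IsDomain A] [AddCommGroup L] [Module A L]
    (N M : Submodule A L) (hM : M.FG) (h : ∀ x, ∃ a : A, a ≠ 0 ∧ a • x ∈ N) :
    ∃ a : A, a ≠ 0 ∧ ∀ x ∈ M, a • x ∈ N := by
  classical
  obtain ⟨s, rfl⟩ := hM
  choose f hf using h
  refine ⟨∏ x ∈ s, f x, Finset.prod_ne_zero_iff.2 fun x _ => (hf x).1, ?_⟩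
  have : Submodule.span A (s : Set L) ≤ N.comap (LinearMap.lsmul A L (∏ x ∈ s, f x)) := by
    rw [Submodule.span_le]
    intro x hx
    simp only [SetLike.mem_coe, Submodule.mem_comap, LinearMap.lsmul_apply]
    rw [← Finset.prod_erase_mul s f hx, mul_smul]
    exact N.smul_mem _ (hf x).2
  exact fun x hx => this hx

variable {k L : Type} [Field k] [Field L] [Algebra k L]

theorem coord {ι : Type} (s : Set L) (w : ι → L)
    (hw : Submodule.span (adjoin k s) (Set.range w) = ⊤)
    (M : Submodule (Algebra.adjoin k s) L) (hM : M.FG) :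
    ∃ a : Algebra.adjoin k s, a ≠ 0 ∧ ∀ x ∈ M,
      a • x ∈ Submodule.span (Algebra.adjoin k s) (Set.range w) := by
  refine den_fg _ M hM fun x => ?_
  have hx : x ∈ Submodule.span (adjoin k s) (Set.range w) := hw ▸ Submodule.mem_top
  induction hx using Submodule.span_induction with
  | mem x hx => exact ⟨1, one_ne_zero, by simpa using Submodule.subset_span hx⟩
  | zero => exact ⟨1, one_ne_zero, by simp⟩
  | add x y _ _ hx hy =>
    obtain ⟨a, ha, ha'⟩ := hx
    obtain ⟨b, hb, hb'⟩ := hy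
    refine ⟨a * b, mul_ne_zero ha hb, ?_⟩
    rw [smul_add]
    refine Submodule.add_mem _ ?_ ?_
    · rw [mul_comm, mul_smul]; exact Submodule.smul_mem _ _ ha'
    · rw [mul_smul]; exact Submodule.smul_mem _ _ hb'
  | smul c x _ hx =>
    obtain ⟨a, ha, ha'⟩ := hx
    obtain ⟨p, q, hq, rfl⟩ := IsFractionRing.div_surjective (A := Algebra.adjoin k s) c
    have hq0 := nonZeroDivisors.ne_zero hq
    refine ⟨a * q, mul_ne_zero ha hq0, ?_⟩
    have hq1 : (q : L) ≠ 0 := by simpa using hq0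
    have : (a * q) • (algebraMap (Algebra.adjoin k s) (adjoin k s) p /
        algebraMap (Algebra.adjoin k s) (adjoin k s) q) • x = p • a • x := by
      simp only [Subalgebra.smul_def, IntermediateField.smul_def, smul_eq_mul]
      push_cast
      simp only [coe_algebraMap]
      field_simp
    rw [this]
    exact Submodule.smul_mem _ _ ha'

theorem pid (Y : L) : IsPrincipalIdealRing (Algebra.adjoin k {Y}) := by
  rw [Algebra.adjoin_singleton_eq_range_aeval]
  exact IsPrincipalIdealRing.of_surjective (aeval Y).rangeRestrict.toRingHom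
    (aeval Y).rangeRestrict_surjective

theorem int_fg [CharZero k] (Y : L) [FiniteDimensional k⟮Y⟯ L] :
    (Subalgebra.toSubmodule (integralClosure (Algebra.adjoin k {Y}) L)).FG := by
  haveI := pid (k := k) Y
  haveI : CharZero k⟮Y⟯ := algebraRat.charZero _
  exact Module.Finite.iff_fg.1 (IsIntegralClosure.finite (Algebra.adjoin k {Y}) k⟮Y⟯ L
    (integralClosure (Algebra.adjoin k {Y}) L))

theorem den_der [CharZero k] {F : Type} [CommRing F] [Algebra F L] (Y : L)
    [FiniteDimensional k⟮Y⟯ L] (d : Derivation F L L) (s : Finset L)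
    (hs : ∀ a : k, d (algebraMap k L a) ∈ Submodule.span k (s : Set L)) :
    ∃ Δ ∈ Algebra.adjoin k {Y}, Δ ≠ 0 ∧ ∀ x, IsIntegral (Algebra.adjoin k {Y}) x →
      IsIntegral (Algebra.adjoin k {Y}) (Δ * d x) := by
  classical
  obtain ⟨g, hg⟩ := int_fg (k := k) Y
  obtain ⟨Δ, h0, hΔ⟩ := exists_integral_multiples (Algebra.adjoin k {Y}) k⟮Y⟯
    (s ∪ {d Y} ∪ g.image d)
  have hm : ∀ x y, IsIntegral (Algebra.adjoin k {Y}) x → IsIntegral (Algebra.adjoin k {Y}) y →
      IsIntegral (Algebra.adjoin k {Y}) (Δ * d x) → IsIntegral (Algebra.adjoin k {Y}) (Δ * d y) →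
      IsIntegral (Algebra.adjoin k {Y}) (Δ * d (x * y)) := by
    intro x y hx hy hx' hy'
    have : Δ * d (x * y) = x * (Δ * d y) + y * (Δ * d x) := by
      rw [d.leibniz]; simp only [smul_eq_mul]; ring
    rw [this]
    exact (hx.mul hy').add (hy.mul hx')
  have hi : ∀ x ∈ Algebra.adjoin k {Y}, IsIntegral (Algebra.adjoin k {Y}) x :=
    fun x hx => isIntegral_algebraMap (x := (⟨x, hx⟩ : Algebra.adjoin k {Y}))
  have h1 : ∀ x ∈ Algebra.adjoin k {Y}, IsIntegral (Algebra.adjoin k {Y}) (Δ * d x) := by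
    intro x hx
    induction hx using Algebra.adjoin_induction with
    | mem x hx =>
      obtain rfl : x = Y := hx
      exact hΔ _ (by simp)
    | algebraMap a =>
      have := hs a
      generalize d (algebraMap k L a) = z at this
      induction this using Submodule.span_induction with
      | mem z hz => exact hΔ _ (by simp [Finset.mem_coe.1 hz])
      | zero => simpa using isIntegral_zero
      | add x y _ _ hx hy => rw [mul_add]; exact hx.add hy
      | smul c x _ hx =>
        rw [Algebra.smul_def, mul_left_comm]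
        exact (hi _ (Subalgebra.algebraMap_mem _ c)).mul hx
    | add x y _ _ hx hy => rw [map_add, mul_add]; exact hx.add hy
    | mul x y hx hy hx' hy' => exact hm _ _ (hi _ hx) (hi _ hy) hx' hy'
  refine ⟨Δ, Δ.2, by simpa using h0, fun x hx => ?_⟩
  have hx' : x ∈ Submodule.span (Algebra.adjoin k {Y}) (g : Set L) := hg ▸ hx
  clear hx
  induction hx' using Submodule.span_induction with
  | mem z hz => exact hΔ _ (by simp; exact Or.inr (Or.inr ⟨z, hz, rfl⟩))
  | zero => simpa using isIntegral_zero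
  | add x y _ _ hx hy => rw [map_add, mul_add]; exact hx.add hy
  | smul c x hx hx' =>
    rw [hg] at hx
    exact hm _ _ (hi _ c.2) hx (h1 _ c.2) hx'

theorem places [CharZero k] (Y : L) [FiniteDimensional k⟮Y⟯ L] :
    ∃ V : Set (Valuation L ℤᵐ⁰),
      (∀ ξ, IsIntegral (Algebra.adjoin k {Y}) ξ ↔ ∀ v ∈ V, v ξ ≤ 1) ∧
      (∀ ξ ≠ 0, {v ∈ V | v ξ ≠ 1}.Finite) ∧
      (∀ v ∈ V, ∃ w, v w = exp (-1)) ∧
      (∀ v ∈ V, ∃ a ∈ Algebra.adjoin k {Y}, a ≠ 0 ∧ v a < 1) ∧
      (∀ v ∈ V, ∀ x, v x ≤ 1 → ∃ a b, IsIntegral (Algebra.adjoin k {Y}) a ∧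
        IsIntegral (Algebra.adjoin k {Y}) b ∧ v b = 1 ∧ x * b = a) := by
  haveI := pid (k := k) Y
  haveI : CharZero k⟮Y⟯ := algebraRat.charZero _
  haveI := integralClosure.isDedekindDomain (Algebra.adjoin k {Y}) k⟮Y⟯ L
  haveI := integralClosure.isFractionRing_of_finite_extension (A := Algebra.adjoin k {Y}) k⟮Y⟯ L
  have f1 : ∀ a : integralClosure (Algebra.adjoin k {Y}) L, a ≠ 0 →
      {v : HeightOneSpectrum (integralClosure (Algebra.adjoin k {Y}) L) |
        v.valuation L (algebraMap _ L a) ≠ 1}.Finite := by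
    intro a ha
    refine (Ideal.finite_factors (I := Ideal.span {a}) (by simpa using ha)).subset fun v hv => ?_
    simp only [Set.mem_setOf_eq, Ideal.dvd_span_singleton] at hv ⊢
    by_contra hn
    exact hv (v.valuation_eq_one_iff_notMem.2 hn)
  refine ⟨Set.range fun v : HeightOneSpectrum (integralClosure (Algebra.adjoin k {Y}) L) =>
    v.valuation L, fun ξ => ⟨?_, fun h => ?_⟩, fun ξ hξ => ?_, ?_, ?_, ?_⟩
  · rintro h _ ⟨v, rfl⟩
    exact v.valuation_le_one (K := L) ⟨ξ, h⟩
  · obtain ⟨a, rfl⟩ := HeightOneSpectrum.mem_integers_of_valuation_le_one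
      (R := integralClosure (Algebra.adjoin k {Y}) L) L ξ fun v => h _ ⟨v, rfl⟩
    exact a.2
  · obtain ⟨p, q, hq, rfl⟩ := IsFractionRing.div_surjective
      (A := integralClosure (Algebra.adjoin k {Y}) L) ξ
    have hp : p ≠ 0 := by
      rintro rfl
      simp at hξ
    refine (((f1 p hp).union (f1 q (nonZeroDivisors.ne_zero hq))).image
      fun v => v.valuation L).subset ?_
    rintro _ ⟨⟨v, rfl⟩, hv⟩
    refine ⟨v, ?_, rfl⟩
    by_contra hn
    simp only [Set.mem_union, Set.mem_setOf_eq, not_or, not_not] at hn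
    exact hv (by rw [map_div₀, hn.1, hn.2, div_one])
  · rintro _ ⟨v, rfl⟩
    exact v.valuation_exists_uniformizer L
  · rintro _ ⟨v, rfl⟩
    obtain ⟨b, hb, hb0⟩ := Submodule.exists_mem_ne_zero_of_ne_bot v.ne_bot
    obtain ⟨a, ha, ha0⟩ := Submodule.exists_mem_ne_zero_of_ne_bot
      (Ideal.comap_ne_bot_of_integral_mem (R := Algebra.adjoin k {Y}) hb0 hb
        (integralClosure.isIntegral b))
    exact ⟨a, a.2, by simpa using ha0, (v.valuation_lt_one_iff_mem (K := L) _).2 ha⟩
  · rintro _ ⟨v, rfl⟩ x hx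
    obtain ⟨a, b, h⟩ := v.exists_primeCompl_mul_eq_of_integer x hx
    exact ⟨a, b.1, a.2, b.1.2, v.valuation_eq_one_iff_notMem.2 b.2, h⟩

end Pool.Agent.H.MP_26f537_al
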