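import Pool.Agent.H.MP_26f537_al.B

set_option maxHeartbeats 400000

namespace Pool.Agent.H.MP_26f537_al

open WithZero Polynomial IntermediateField IntermediateField.algebraAdjoinAdjoin

variable {k L : Type} [Field k] [Field L] [Algebra k L]

theorem vden {F : Type} [CommRing F] [Algebra F L] (S : Subalgebra k L) (v : Valuation L ℤᵐ⁰)
    (d : Derivation F L L) (Δ : L) (h1 : ∀ x, IsIntegral S x → v x ≤ 1)
    (h2 : ∀ x, v x ≤ 1 → ∃ a b, IsIntegral S a ∧ IsIntegral S b ∧ v b = 1 ∧ x * b = a)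
    (h3 : ∀ x, IsIntegral S x → IsIntegral S (Δ * d x)) (x : L) (hx : v x ≤ 1) :
    v (Δ * d x) ≤ 1 := by
  obtain ⟨a, b, ha, hb, hv, rfl⟩ := h2 x hx
  have hb0 : b ≠ 0 := by
    rintro rfl
    simp at hv
  have : Δ * d x = (Δ * d (x * b) - x * (Δ * d b)) / b := by
    rw [d.leibniz]; simp only [smul_eq_mul]; field_simp; ring
  rw [this, map_div₀, hv, div_one]
  refine v.map_sub_le (h1 _ (h3 _ ha)) ?_
  rw [map_mul]
  exact mul_le_one' hx (h1 _ (h3 _ hb))

theorem vk (v : Valuation L ℤᵐ⁰) (h : ∀ a : k, v (algebraMap k L a) ≤ 1) (a : k) (ha : a ≠ 0) :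
    v (algebraMap k L a) = 1 := by
  refine eq_one_of_one_le_mul_left (h a) (h a⁻¹) ?_
  rw [← map_mul, ← map_mul, mul_inv_cancel₀ ha, map_one, map_one]

theorem le_exp {x : ℤᵐ⁰} (h : x < 1) : x ≤ exp (-1) := by
  rcases eq_or_ne x 0 with rfl | h0
  · simp
  rw [← exp_log h0, ← exp_zero, exp_lt_exp] at h
  rw [← exp_log h0, exp_le_exp]
  omega

theorem pole [CharZero k] {F : Type} [CommRing F] [Algebra F L] (Y : L) (hY : Y ≠ 0)
    [FiniteDimensional k⟮Y⟯ L] (d : Derivation F L L) (s : Finset L)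
    (hs : ∀ a : k, d (algebraMap k L a) ∈ Submodule.span k (s : Set L)) :
    ∃ Θ ∈ Algebra.adjoin k {Y}, Θ ≠ 0 ∧ ∀ ξ ≠ 0, IsIntegral (Algebra.adjoin k {Y⁻¹}) (d ξ / ξ) →
      IsIntegral (Algebra.adjoin k {Y}) (Θ * (d ξ / ξ)) := by
  obtain ⟨V, h1, -, h3, -, h5⟩ := places (k := k) Y
  obtain ⟨Δ, hΔ, h0, hd⟩ := den_der Y d s hs
  have hi : ∀ x ∈ Algebra.adjoin k {Y}, IsIntegral (Algebra.adjoin k {Y}) x :=
    fun x hx => isIntegral_algebraMap (x := (⟨x, hx⟩ : Algebra.adjoin k {Y}))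
  have hY1 := Algebra.self_mem_adjoin_singleton k Y
  refine ⟨Δ * Y, mul_mem hΔ hY1, mul_ne_zero h0 hY, fun ξ hξ hχ => (h1 _).2 fun v hv => ?_⟩
  have hk : ∀ a : k, v (algebraMap k L a) ≤ 1 :=
    fun a => (h1 _).1 (hi _ (Subalgebra.algebraMap_mem _ a)) v hv
  have hvY : v Y ≤ 1 := (h1 _).1 (hi _ hY1) v hv
  rcases hvY.eq_or_lt with e | e
  · have : v (d ξ / ξ) ≤ 1 := by
      refine val_int v _ (fun x hx => ?_) hχ
      induction hx using Algebra.adjoin_induction with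
      | mem x hx =>
        obtain rfl : x = Y⁻¹ := hx
        simp [e]
      | algebraMap a => exact hk a
      | add x y _ _ hx hy => exact v.map_add_le hx hy
      | mul x y _ _ hx hy => rw [map_mul]; exact mul_le_one' hx hy
    rw [map_mul, map_mul]
    exact mul_le_one' (mul_le_one' ((h1 _).1 (hi _ hΔ) v hv) hvY) this
  · obtain ⟨w, hw⟩ := h3 v hv
    have hD := vden _ v d Δ (fun x hx => (h1 _).1 hx v hv) (h5 v hv) hd
    have r := val_res v d Δ w hw hD ξ hξ
    have r2 : v ((log (v ξ) : ℤ) * (Δ * d w)) ≤ 1 := by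
      rw [map_mul]
      refine mul_le_one' ?_ (hD _ ?_)
      · simpa using hk (log (v ξ) : ℤ)
      · rw [hw, ← exp_zero, exp_le_exp]; norm_num
    have r3 := v.map_sub_le r.le r2
    rw [add_sub_cancel_right] at r3
    refine le_trans ?_ r3
    simp only [map_mul]
    gcongr
    rw [hw]
    exact le_exp e

theorem one [CharZero k] {F : Type} [CommRing F] [Algebra F L] (Y : L)
    [FiniteDimensional k⟮Y⟯ L] (D : Derivation F L L) (hD : ∀ a : k, D (algebraMap k L a) = 0)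
    (hY : D Y ≠ 0) :
    ∃ V : Set (Valuation L ℤᵐ⁰), (∀ v ∈ V, ∀ a : k, v (algebraMap k L a) ≤ 1) ∧
      (∀ ξ, (∀ v ∈ V, v ξ ≤ 1) → IsIntegral (Algebra.adjoin k {Y}) ξ) ∧
      (∀ ξ ≠ 0, {v ∈ V | v ξ ≠ 1}.Finite) ∧
      {v ∈ V | ¬ ∃ w, ∀ ξ ≠ 0, (v (w * (D ξ / ξ)) < 1 ↔ v ξ = 1)}.Finite := by
  obtain ⟨V, h1, h2, h3, h4, h5⟩ := places (k := k) Y
  obtain ⟨Δ, hΔ, h0, hd⟩ := den_der (k := k) Y D ∅ (fun a => by simp [hD])
  have hi : ∀ x ∈ Algebra.adjoin k {Y}, IsIntegral (Algebra.adjoin k {Y}) x :=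
    fun x hx => isIntegral_algebraMap (x := (⟨x, hx⟩ : Algebra.adjoin k {Y}))
  have hk : ∀ v ∈ V, ∀ a : k, v (algebraMap k L a) ≤ 1 :=
    fun v hv a => (h1 _).1 (hi _ (Subalgebra.algebraMap_mem _ a)) v hv
  refine ⟨V, hk, fun ξ h => (h1 ξ).2 h, h2, ((h2 Δ h0).union (h2 _ hY)).subset ?_⟩
  rintro v ⟨hv, hn⟩
  by_contra hc
  simp only [Set.mem_union, Set.mem_setOf_eq, hv, true_and, not_or, not_not] at hc
  apply hn
  obtain ⟨w, hw⟩ := h3 v hv
  have hD1 : ∀ x, v x ≤ 1 → v (1 * D x) ≤ 1 := fun x hx => by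
    have := vden _ v D Δ (fun x hx => (h1 _).1 hx v hv) (h5 v hv) hd x hx
    simpa [hc.1] using this
  have hw1 : v w < 1 := by rw [hw, ← exp_zero, exp_lt_exp]; norm_num
  have hw0 : w ≠ 0 := by
    rintro rfl
    rw [map_zero] at hw
    exact exp_ne_zero hw.symm
  have hDw : v (D w) = 1 := by
    classical
    have ex : ∃ n, ∃ g : k[X], g ≠ 0 ∧ v (aeval Y g) < 1 ∧ g.natDegree = n := by
      obtain ⟨a, ha, ha0, hva⟩ := h4 v hv
      rw [Algebra.adjoin_singleton_eq_range_aeval] at ha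
      obtain ⟨g, rfl⟩ := ha
      exact ⟨_, g, by rintro rfl; simp at ha0, hva, rfl⟩
    obtain ⟨g, hg0, hg, hn⟩ := Nat.find_spec ex
    have hg1 : g.natDegree ≠ 0 := by
      intro e
      rw [eq_C_of_natDegree_eq_zero e] at hg hg0
      rw [aeval_C, vk v (hk v hv) _ (by simpa using hg0)] at hg
      exact lt_irrefl _ hg
    have hg2 : v (aeval Y (derivative g)) = 1 := by
      refine le_antisymm ((h1 _).1 (hi _ (aeval_mem_adjoin_singleton k Y)) v hv) ?_
      by_contra hl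
      refine Nat.find_min ex (m := (derivative g).natDegree) ?_ ⟨_, ?_, not_le.1 hl, rfl⟩
      · rw [← hn]; exact natDegree_derivative_lt hg1
      · intro e
        exact hg1 (natDegree_eq_zero_of_derivative_eq_zero e)
    have e1 : v (D (aeval Y g)) = 1 := by
      rw [← toK_ap k D hD, Derivation.map_aeval, toK_ap, smul_eq_mul, map_mul, hg2, hc.2, mul_one]
    have hu : v (aeval Y g / w) ≤ 1 := by
      rw [map_div₀, hw]
      exact div_le_one_of_le₀ (le_exp hg) zero_le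
    have e2 : D (aeval Y g) = w * D (aeval Y g / w) + aeval Y g / w * D w := by
      conv_lhs => rw [← mul_div_cancel₀ (aeval Y g) hw0, D.leibniz]
      simp
    have hDw1 : v (D w) ≤ 1 := by simpa using hD1 w hw1.le
    by_contra hne
    have : v (D (aeval Y g)) < 1 := by
      rw [e2]
      refine v.map_add_lt ?_ ?_
      · rw [map_mul]
        exact mul_lt_one_of_lt_of_le hw1 (by simpa using hD1 _ hu)
      · rw [map_mul, mul_comm]
        exact mul_lt_one_of_lt_of_le (lt_of_le_of_ne hDw1 hne) hu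
    exact this.ne e1
  refine ⟨w, fun ξ hξ => ?_⟩
  have r := val_res v D 1 w hw hD1 ξ hξ
  have hv0 : v ξ ≠ 0 := by simpa using hξ
  simp only [one_mul] at r
  constructor
  · intro h
    have r2 := v.map_sub_lt r h
    rw [add_sub_cancel_left, map_mul, hDw, mul_one] at r2
    by_contra hne
    have : log (v ξ) ≠ 0 := fun e => hne (by rw [← exp_log hv0, e, exp_zero])
    have := vk v (hk v hv) (log (v ξ) : ℤ) (by exact_mod_cast this)
    rw [map_intCast] at this
    exact r2.ne this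
  · intro h
    simpa [h] using r

end Pool.Agent.H.MP_26f537_al
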