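import Pool.Agent.H.MP_26f537_al.C

set_option maxHeartbeats 400000

namespace Pool.Agent.H.MP_26f537_al

open WithZero Polynomial IntermediateField IntermediateField.algebraAdjoinAdjoin

variable {k L : Type} [Field k] [Field L] [Algebra k L]

theorem exD [CharZero k] (Y : L) (hY : Transcendental k Y) [FiniteDimensional k⟮Y⟯ L] :
    ∃ D : Derivation k L L, D Y = 1 := by
  haveI : CharZero k⟮Y⟯ := algebraRat.charZero _
  haveI : Algebra.FormallyEtale (Algebra.adjoin k {Y}) k⟮Y⟯ :=
    Algebra.FormallyEtale.of_isLocalization (nonZeroDivisors _)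
  haveI : Algebra.FormallyEtale k⟮Y⟯ L := Algebra.FormallyEtale.of_isSeparable _ _
  haveI : Algebra.FormallyEtale (Algebra.adjoin k {Y}) L := Algebra.FormallyEtale.comp _ k⟮Y⟯ _
  let e := algEquivOfTranscendental k Y hY
  have he : ∀ a : Algebra.adjoin k {Y}, aeval Y (e.symm a) = a := by
    intro a
    obtain ⟨p, rfl⟩ := e.surjective a
    simp [e]
  let d : Derivation k (Algebra.adjoin k {Y}) L := Derivation.mk'
    ((aeval Y).toLinearMap ∘ₗ derivative ∘ₗ e.symm.toLinearMap) (fun a b => by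
      simp [Subalgebra.smul_def, he]
      ring)
  obtain ⟨D, hD⟩ := ext_der d
  refine ⟨D, (hD ⟨Y, Algebra.self_mem_adjoin_singleton k Y⟩).trans ?_⟩
  have : e.symm ⟨Y, Algebra.self_mem_adjoin_singleton k Y⟩ = X := by
    rw [AlgEquiv.symm_apply_eq]
    ext
    simp [e]
  simp [d, this]

theorem adj_inv (Y : L) : k⟮Y⁻¹⟯ = k⟮Y⟯ := by
  apply le_antisymm
  · exact adjoin_simple_le_iff.2 (inv_mem (mem_adjoin_simple_self k Y))
  · exact adjoin_simple_le_iff.2 (by simpa using inv_mem (mem_adjoin_simple_self k Y⁻¹))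

theorem coords [CharZero k] {ι : Type} [Fintype ι] (Y : L) (w : ι → L)
    (hw : Submodule.span k⟮Y⟯ (Set.range w) = ⊤) :
    ∃ t : k[X], aeval Y t ≠ 0 ∧ ∀ x, IsIntegral (Algebra.adjoin k {Y}) x →
      ∃ q : ι → k[X], aeval Y t * x = ∑ j, aeval Y (q j) * w j := by
  haveI : FiniteDimensional k⟮Y⟯ L := ⟨Submodule.fg_def.2 ⟨_, Set.finite_range w, hw⟩⟩
  obtain ⟨a, ha, h⟩ := coord {Y} w hw _ (int_fg Y)
  have hs : ∀ a : Algebra.adjoin k {Y}, ∃ p : k[X], aeval Y p = a := fun a =>
    (Algebra.adjoin_singleton_eq_range_aeval k Y).le a.2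
  choose f hf using hs
  refine ⟨f a, by simpa [hf] using ha, fun x hx => ?_⟩
  obtain ⟨c, hc⟩ := (Submodule.mem_span_range_iff_exists_fun _).1 (h x hx)
  exact ⟨fun j => f (c j), by simpa [hf, Subalgebra.smul_def] using hc.symm⟩

theorem sep [CharZero k] (Y : L) (hY : Transcendental k Y) [FiniteDimensional k⟮Y⟯ L] (x : L)
    (h1 : IsIntegral (Algebra.adjoin k {Y}) x) (h2 : IsIntegral (Algebra.adjoin k {Y⁻¹}) x) :
    IsIntegral k x := by
  let b := Module.finBasis k⟮Y⟯ L
  obtain ⟨s, hs, hs'⟩ := coords (k := k) Y b b.span_eq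
  obtain ⟨t, ht, ht'⟩ := coords (k := k) Y⁻¹ b (by rw [adj_inv]; exact b.span_eq)
  have m1 : ∀ p : k[X], aeval Y p ∈ k⟮Y⟯ := fun p =>
    algebra_adjoin_le_adjoin k _ (aeval_mem_adjoin_singleton k Y)
  have m2 : ∀ p : k[X], aeval Y⁻¹ p ∈ k⟮Y⟯ := fun p => by
    rw [← adj_inv]
    exact algebra_adjoin_le_adjoin k _ (aeval_mem_adjoin_singleton k Y⁻¹)
  let N : Submodule k L := Submodule.span k (Set.range
    fun ij : Fin (s.natDegree + t.natDegree + 1) × _ => Y ^ (ij.1 : ℕ) * b ij.2 / aeval Y s)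
  have hN : ∀ n : ℕ, x ^ n ∈ N := by
    intro n
    obtain ⟨p, hp⟩ := hs' _ (h1.pow n)
    obtain ⟨q, hq⟩ := ht' _ (h2.pow n)
    have e : ∀ j, aeval Y⁻¹ t * aeval Y (p j) = aeval Y s * aeval Y⁻¹ (q j) := by
      intro j
      have := Fintype.linearIndependent_iff.1 b.linearIndependent
        (fun j => ⟨_, sub_mem (mul_mem (m2 t) (m1 (p j))) (mul_mem (m1 s) (m2 (q j)))⟩) (by
          simp only [IntermediateField.smul_def, smul_eq_mul, sub_mul, Finset.sum_sub_distrib,
            mul_assoc, ← Finset.mul_sum, ← hp, ← hq]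
          ring) j
      exact sub_eq_zero.1 (congrArg Subtype.val this)
    have : x ^ n = ∑ j, aeval Y (p j) * b j / aeval Y s := by
      rw [← Finset.sum_div, ← hp]
      field_simp
    rw [this]
    refine N.sum_mem fun j _ => ?_
    rw [aeval_eq_sum_range' (Nat.lt_succ_of_le (deg_le hY (by rintro rfl; simp at ht) (e j))),
      Finset.sum_mul, Finset.sum_div]
    refine N.sum_mem fun i hi => ?_
    rw [smul_mul_assoc, smul_div_assoc]
    exact N.smul_mem _ (Submodule.subset_span ⟨(⟨i, Finset.mem_range.1 hi⟩, j), rfl⟩)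
  have hfg : N.FG := Submodule.fg_span (Set.finite_range _)
  refine IsIntegral.of_mem_of_fg (Algebra.adjoin k {x}) (Submodule.FG.of_le hfg ?_) x
    (Algebra.self_mem_adjoin_singleton k x)
  intro z hz
  rw [Subalgebra.mem_toSubmodule, Algebra.adjoin_singleton_eq_range_aeval] at hz
  obtain ⟨p, rfl⟩ := hz
  change aeval x p ∈ N
  rw [aeval_eq_sum_range]
  exact N.sum_mem fun i _ => N.smul_mem _ (hN i)

theorem wron {W : Type} [AddCommGroup W] [Module L W] [Module k W] [IsScalarTower k L W]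
    {T : Type} (ev : T → W →ₗ[L] L) (hev : ∀ w, (∀ t, ev t w = 0) → w = 0) (τ : T → T)
    (δ : Derivation k L L) (hδ : ∀ a, δ a = 0 → a ∈ Set.range (algebraMap k L))
    (s : Finset W) (hs : ∀ w ∈ s, ∀ t, δ (ev t w) = ev (τ t) w)
    (h : LinearIndepOn k id (s : Set W)) : LinearIndepOn L id (s : Set W) := by
  classical
  induction s using Finset.induction_on with
  | empty => simp
  | insert a s ha ih =>
    rw [Finset.coe_insert, linearIndepOn_id_insert (by simpa using ha)] at h ⊢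
    have ih' := ih (fun w hw => hs w (Finset.mem_insert_of_mem hw)) h.1
    refine ⟨ih', fun hm => h.2 ?_⟩
    obtain ⟨c, -, hc⟩ := Submodule.mem_span_finset.1 hm
    have e : ∑ w ∈ s, δ (c w) • w = 0 := by
      refine hev _ fun t => ?_
      have h1 := hs a (Finset.mem_insert_self _ _) t
      rw [← hc] at h1
      simp only [map_sum, map_smul, smul_eq_mul, Derivation.leibniz, Finset.sum_add_distrib] at h1 ⊢
      rw [Finset.sum_congr rfl fun w hw => by
        rw [hs w (Finset.mem_insert_of_mem hw) t]] at h1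
      simpa [mul_comm] using h1
    rw [← hc]
    refine Submodule.sum_mem _ fun w hw => ?_
    obtain ⟨b, hb⟩ := hδ _ (linearIndepOn_iff'.1 ih' s (fun w => δ (c w)) subset_rfl e w hw)
    rw [← hb, algebraMap_smul]
    exact Submodule.smul_mem _ _ (Submodule.subset_span hw)

end Pool.Agent.H.MP_26f537_al
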