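import Pool.Agent.H.MP_26f537_al.D

set_option maxHeartbeats 400000

namespace Pool.Agent.H.MP_26f537_al

open WithZero Polynomial IntermediateField IntermediateField.algebraAdjoinAdjoin

variable {F L : Type} [Field F] [Field L] [Algebra F L] {n : ℕ}

/-- the field generated by all variables but one -/
abbrev kk (F : Type) [Field F] [Algebra F L] (y : Fin n → L) (i : Fin n) : IntermediateField F L :=
  adjoin F (y '' {i}ᶜ)

theorem kk_tr {y : Fin n → L} (hy : AlgebraicIndependent F y) (i : Fin n) :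
    Transcendental (kk F y i) (y i) :=
  IntermediateField.transcendental_adjoin_iff.2 (hy.transcendental_adjoin (by simp))

theorem kk_mem (y : Fin n → L) (i : Fin n) (x : L) :
    x ∈ (kk F y i)⟮y i⟯ ↔ x ∈ adjoin F (Set.range y) := by
  have : y '' {i}ᶜ ∪ {y i} = Set.range y := by
    rw [← Set.image_singleton, ← Set.image_union, Set.compl_union_self, Set.image_univ]
  rw [← this, ← adjoin_adjoin_left, mem_restrictScalars]

theorem kk_span {ι : Type} [Fintype ι] (y : Fin n → L) (i : Fin n) (w : ι → L)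
    (hw : Submodule.span (adjoin F (Set.range y)) (Set.range w) = ⊤) :
    Submodule.span (kk F y i)⟮y i⟯ (Set.range w) = ⊤ := by
  rw [eq_top_iff]
  intro x _
  obtain ⟨c, rfl⟩ := (Submodule.mem_span_range_iff_exists_fun _).1 (hw ▸ Submodule.mem_top :
    x ∈ Submodule.span (adjoin F (Set.range y)) (Set.range w))
  exact (Submodule.mem_span_range_iff_exists_fun _).2
    ⟨fun j => ⟨c j, (kk_mem y i _).2 (c j).2⟩, rfl⟩

theorem kk_fd (y : Fin n → L) (i : Fin n) [FiniteDimensional (adjoin F (Set.range y)) L] :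
    FiniteDimensional (kk F y i)⟮y i⟯ L :=
  ⟨Submodule.fg_def.2 ⟨_, Set.finite_range _,
    kk_span y i _ (Module.finBasis (adjoin F (Set.range y)) L).span_eq⟩⟩

theorem kk_sub (y : Fin n → L) (i : Fin n) (x : L) (hx : x ∈ Algebra.adjoin F (Set.range y)) :
    x ∈ Algebra.adjoin (kk F y i) {y i} := by
  induction hx using Algebra.adjoin_induction with
  | mem x hx =>
    obtain ⟨j, rfl⟩ := hx
    by_cases h : j = i
    · subst h; exact Algebra.self_mem_adjoin_singleton _ _
    · exact Subalgebra.algebraMap_mem _ (⟨y j, subset_adjoin _ _ ⟨j, h, rfl⟩⟩ : kk F y i)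
  | algebraMap a => exact Subalgebra.algebraMap_mem _ (algebraMap F (kk F y i) a)
  | add x y _ _ hx hy => exact add_mem hx hy
  | mul x y _ _ hx hy => exact mul_mem hx hy

theorem kk_int (y : Fin n → L) (i : Fin n) (x : L)
    (hx : IsIntegral (Algebra.adjoin F (Set.range y)) x) :
    IsIntegral (Algebra.adjoin (kk F y i) {y i}) x := by
  let φ : Algebra.adjoin F (Set.range y) →+* Algebra.adjoin (kk F y i) {y i} :=
    ((Algebra.adjoin F (Set.range y)).val.toRingHom).codRestrict _ (fun a => kk_sub y i _ a.2)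
  exact hx.map_of_comp_eq φ (RingHom.id L) (by ext; rfl)

theorem mvP {y : Fin n → L} (hy : AlgebraicIndependent F y) (i : Fin n) (p : MvPolynomial (Fin n) F) :
    ∃ P : (kk F y i)[X], aeval (y i) P = MvPolynomial.aeval y p ∧
      P.natDegree = p.degreeOf i := by
  let ρ : MvPolynomial {b // b ≠ i} F →ₐ[F] kk F y i :=
    MvPolynomial.aeval fun b => ⟨y b, subset_adjoin _ _ ⟨b, b.2, rfl⟩⟩
  have hρ : Function.Injective ρ := by
    have h1 : Function.Injective (MvPolynomial.aeval (R := F) fun b : {b // b ≠ i} => y b) :=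
      hy.comp _ Subtype.val_injective
    have h2 : (kk F y i).val.comp ρ = MvPolynomial.aeval fun b : {b // b ≠ i} => y b := by
      ext b; simp [ρ]
    rw [← h2] at h1
    exact Function.Injective.of_comp (f := (kk F y i).val) h1
  refine ⟨(MvPolynomial.optionEquivLeft F {b // b ≠ i}
    (MvPolynomial.rename (Equiv.optionSubtypeNe i).symm p)).map ρ.toRingHom, ?_, ?_⟩
  · induction p using MvPolynomial.induction_on with
    | C a => simp [ρ]
    | add p q hp hq => simp only [map_add, Polynomial.map_add, hp, hq]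
    | mul_X p j hp =>
      simp only [map_mul, Polynomial.map_mul, hp]
      congr 1
      by_cases h : j = i
      · subst h; simp
      · simp [Equiv.optionSubtypeNe_symm_of_ne h, ρ]
  · rw [natDegree_map_eq_of_injective hρ, MvPolynomial.degreeOf_eq_natDegree]

theorem der_span (s : Set L) (d : Derivation F L L) (a : adjoin F s) :
    d a ∈ Submodule.span (adjoin F s) (d '' s) := by
  obtain ⟨a, ha⟩ := a
  induction ha using IntermediateField.adjoin_induction with
  | mem x hx => exact Submodule.subset_span ⟨x, hx, rfl⟩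
  | algebraMap a => simp
  | add x y _ _ hx hy => simpa using add_mem hx hy
  | inv x hx' hx =>
    simp only [d.leibniz_inv]
    exact Submodule.smul_mem _ (⟨_, neg_mem (pow_mem (inv_mem hx') 2)⟩ : adjoin F s) hx
  | mul x y hx' hy' hx hy =>
    simp only [d.leibniz]
    exact add_mem (Submodule.smul_mem _ (⟨x, hx'⟩ : adjoin F s) hy)
      (Submodule.smul_mem _ (⟨y, hy'⟩ : adjoin F s) hx)

theorem der_zero [CharZero F] (y : Fin n → L) [FiniteDimensional (adjoin F (Set.range y)) L]
    (d : Derivation F L L) (h : ∀ j, d (y j) = 0) (x : L) : d x = 0 := by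
  have h1 : ∀ a : adjoin F (Set.range y), d (algebraMap _ L a) = 0 := fun a => by
    have := der_span (Set.range y) d a
    rwa [Submodule.span_eq_bot.2 (by rintro _ ⟨_, ⟨j, rfl⟩, rfl⟩; exact h j)] at this
  haveI : CharZero (adjoin F (Set.range y)) := algebraRat.charZero _
  exact der_int (toK _ d h1) (Algebra.IsIntegral.isIntegral x)

theorem bound [CharZero F] {y : Fin n → L} (hy : AlgebraicIndependent F y)
    [FiniteDimensional (adjoin F (Set.range y)) L] (δ : Derivation F L L)
    (M : Submodule (Algebra.adjoin F (Set.range y)) L) (hM : M.FG)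
    (hi : ∀ x ∈ M, IsIntegral (Algebra.adjoin F (Set.range y)) x) :
    ∃ V : Submodule F L, V.FG ∧ ∀ ξ ≠ 0, δ ξ / ξ ∈ M → δ ξ / ξ ∈ V := by
  classical
  let b := Module.finBasis (adjoin F (Set.range y)) L
  obtain ⟨a, ha, h⟩ := coord _ b b.span_eq M hM
  have hs : ∀ a : Algebra.adjoin F (Set.range y), ∃ p, MvPolynomial.aeval y p = a := fun a =>
    (Algebra.adjoin_range_eq_range_aeval F y).le a.2
  choose f hf using hs
  have key : ∀ i, ∃ c : ℕ, ∀ ξ ≠ 0, δ ξ / ξ ∈ M → ∀ p : _ → MvPolynomial (Fin n) F,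
      a * (δ ξ / ξ) = ∑ j, MvPolynomial.aeval y (p j) * b j → ∀ j, (p j).degreeOf i ≤ c := by
    intro i
    haveI : CharZero (kk F y i) := algebraRat.charZero _
    haveI := kk_fd (F := F) y i
    haveI : FiniteDimensional (kk F y i)⟮(y i)⁻¹⟯ L := by rw [adj_inv]; infer_instance
    have htr := kk_tr hy i
    have hy0 : y i ≠ 0 := fun e => htr (e ▸ isAlgebraic_zero)
    obtain ⟨Θ, hΘ, hΘ0, hp⟩ := pole (k := kk F y i) (y i)⁻¹ (inv_ne_zero hy0) δ
      ((Set.toFinite (δ '' (y '' {i}ᶜ))).toFinset) (fun a => by simpa using der_span _ δ a)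
    obtain ⟨θ, rfl⟩ := (Algebra.adjoin_singleton_eq_range_aeval _ _).le hΘ
    obtain ⟨t, ht, ht'⟩ := coords (k := kk F y i) (y i)⁻¹ b
      (by rw [adj_inv]; exact kk_span y i _ b.span_eq)
    obtain ⟨A, hA, -⟩ := mvP hy i (f a)
    refine ⟨A.natDegree + (t * θ).natDegree, fun ξ hξ hm p hp' j => ?_⟩
    obtain ⟨q, hq⟩ := ht' _ (hp ξ hξ (by rw [inv_inv]; exact kk_int y i _ (hi _ hm)))
    obtain ⟨P, hP, hP'⟩ := mvP hy i (p j)
    have m1 : ∀ p, MvPolynomial.aeval y p ∈ adjoin F (Set.range y) := fun p =>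
      algebra_adjoin_le_adjoin F _ ((Algebra.adjoin_range_eq_range_aeval F y).ge ⟨p, rfl⟩)
    have m2 : ∀ p : (kk F y i)[X], aeval (y i)⁻¹ p ∈ adjoin F (Set.range y) := fun p => by
      rw [← kk_mem y i, ← adj_inv]
      exact algebra_adjoin_le_adjoin _ _ (aeval_mem_adjoin_singleton _ _)
    have ht0 : aeval (y i)⁻¹ (t * θ) ≠ 0 := by
      rw [map_mul]; exact mul_ne_zero ht hΘ0
    rw [← hP']
    refine deg_le (q := q j) htr (by rintro e; simp [e] at ht0) ?_
    have := Fintype.linearIndependent_iff.1 b.linearIndependent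
      (fun j => ⟨_, sub_mem (mul_mem (m2 (t * θ)) (m1 (p j))) (mul_mem (m1 (f a)) (m2 (q j)))⟩) (by
        simp only [IntermediateField.smul_def, smul_eq_mul, sub_mul, Finset.sum_sub_distrib,
          mul_assoc, ← Finset.mul_sum, ← hp', ← hq, hf, map_mul]
        simp only [AlgHom.toRingHom_eq_coe, RingHom.coe_coe]
        ring) j
    rw [hP, hA]
    exact sub_eq_zero.1 (congrArg Subtype.val this)
  choose c hc using key
  let R := MvPolynomial.restrictDegree (Fin n) F (Finset.univ.sup c)
  have hR : R.FG := Module.Finite.iff_fg.1 inferInstance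
  refine ⟨⨆ j, R.map (LinearMap.mulRight F (b j / a) ∘ₗ (MvPolynomial.aeval y).toLinearMap),
    Submodule.fg_iSup _ fun j => hR.map _, fun ξ hξ hm => ?_⟩
  obtain ⟨e, he⟩ := (Submodule.mem_span_range_iff_exists_fun _).1 (h _ hm)
  have he' : a * (δ ξ / ξ) = ∑ j, MvPolynomial.aeval y (f (e j)) * b j := by
    simpa [hf, Subalgebra.smul_def] using he.symm
  have ha0 : (a : L) ≠ 0 := by simpa using ha
  have : δ ξ / ξ = ∑ j, MvPolynomial.aeval y (f (e j)) * (b j / a) := by
    simp only [← mul_div_assoc, ← Finset.sum_div, ← he']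
    field_simp
  rw [this]
  refine Submodule.sum_mem _ fun j _ => Submodule.mem_iSup_of_mem j ⟨f (e j), ?_, rfl⟩
  refine (MvPolynomial.mem_restrictDegree _ _ _).2 fun s hs i => ?_
  exact (MvPolynomial.monomial_le_degreeOf i hs).trans ((hc i ξ hξ hm _ he' j).trans
    (Finset.le_sup (Finset.mem_univ i)))

end Pool.Agent.H.MP_26f537_al
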