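import Pool.Agent.H.MP_26f537_al.E

set_option maxHeartbeats 400000

namespace Pool.Agent.H.MP_26f537_al

open WithZero Polynomial IntermediateField IntermediateField.algebraAdjoinAdjoin

variable {F L : Type} [Field F] [Field L] [Algebra F L] {n : ℕ}

/-- pairing of a derivation with a coordinate vector -/
def ev (y : Fin n → L) (d : Derivation F L L) : (Fin n → L) →ₗ[L] L :=
  ∑ j, d (y j) • LinearMap.proj j

theorem ev_ap (y : Fin n → L) (d : Derivation F L L) (w : Fin n → L) :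
    ev y d w = ∑ j, d (y j) * w j := by
  simp [ev]

theorem span_fg [CharZero F] (y : Fin n → L) [FiniteDimensional (adjoin F (Set.range y)) L]
    (δ : Derivation F L L) (hδ : ∀ a, δ a = 0 → a ∈ Set.range (algebraMap F L))
    (D : Fin n → Derivation F L L) (hD : ∀ i j, D i (y j) = if i = j then 1 else 0)
    (hU : ∀ (d : Derivation F L L) x, d x = ∑ j, d (y j) * D j x)
    (V : Submodule F L) (hV : V.FG) (G : Set L) (hG : ∀ ξ ∈ G, ξ ≠ 0 ∧ δ ξ / ξ ∈ V) :
    (Submodule.span F ((fun ξ i => D i ξ / ξ) '' G)).FG := by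
  have h0 : ∀ (d : Derivation F L L) ξ, ev y d (fun i => D i ξ / ξ) = d ξ / ξ := fun d ξ => by
    rw [ev_ap, hU d ξ, Finset.sum_div]
    simp only [mul_div_assoc]
  have h1 : ∀ w ∈ Submodule.span F ((fun ξ i => D i ξ / ξ) '' G), ∀ d : Derivation F L L,
      δ (ev y d w) = ev y ⁅δ, d⁆ w + d (ev y δ w) := by
    intro w hw d
    induction hw using Submodule.span_induction with
    | mem w hw =>
      obtain ⟨ξ, hξ, rfl⟩ := hw
      have := (hG ξ hξ).1
      simp only [h0, Derivation.commutator_apply, Derivation.leibniz_div, smul_eq_mul]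
      field_simp
      ring
    | zero => simp
    | add a b _ _ ha hb => simp only [map_add, ha, hb]; ring
    | smul c a _ ha => simp only [LinearMap.map_smul_of_tower, Derivation.map_smul, ha, smul_add]
  refine Submodule.fg_of_fg_map_of_fg_inf_ker ((ev y δ).restrictScalars F) (hV.of_le ?_) ?_
  · rw [Submodule.map_span, Submodule.span_le]
    rintro _ ⟨_, ⟨ξ, hξ, rfl⟩, rfl⟩
    simpa [h0] using (hG ξ hξ).2
  · obtain ⟨t, ht, hs, hl⟩ := exists_linearIndependent F
      ((Submodule.span F ((fun ξ i => D i ξ / ξ) '' G) ⊓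
        LinearMap.ker ((ev y δ).restrictScalars F) : Submodule F _) : Set (Fin n → L))
    rw [Submodule.span_eq] at hs
    rw [← hs]
    refine Submodule.fg_span (LinearIndependent.setFinite (R := L) ?_)
    change LinearIndepOn L id t
    refine linearIndepOn_iff_linearIndepOn_finset.2 fun s hst => ?_
    refine wron (T := Derivation F L L) (ev y) (fun w hw => funext fun i => ?_) (fun d => ⁅δ, d⁆) δ hδ s (fun w hw d => ?_)
      (LinearIndepOn.mono hl hst)
    · simpa [ev_ap, hD] using hw (D i)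
    · have := ht (hst hw)
      rw [h1 w this.1, show ev y δ w = 0 from this.2, map_zero, add_zero]

theorem core [CharZero F] {y : Fin n → L} (hy : AlgebraicIndependent F y)
    [FiniteDimensional (adjoin F (Set.range y)) L] (δ : Derivation F L L)
    (hδ : ∀ a, δ a = 0 → a ∈ Set.range (algebraMap F L))
    (M : Submodule (Algebra.adjoin F (Set.range y)) L) (hM : M.FG)
    (hi : ∀ x ∈ M, IsIntegral (Algebra.adjoin F (Set.range y)) x) :
    ∃ H : Submodule ℤ L, H.FG ∧ ∀ ξ ≠ 0, δ ξ / ξ ∈ M → δ ξ / ξ ∈ H := by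
  classical
  obtain ⟨V, hV, hVM⟩ := bound hy δ M hM hi
  have c0 : ∀ i, CharZero (kk F y i) := fun i => algebraRat.charZero _
  have f1 := fun i => kk_fd (F := F) y i
  have f2 : ∀ i, FiniteDimensional (kk F y i)⟮(y i)⁻¹⟯ L := fun i => by
    rw [adj_inv]; infer_instance
  choose D' hD' using fun i => exD (y i) (kk_tr hy i)
  let D : Fin n → Derivation F L L := fun i => (D' i).restrictScalars F
  have hD : ∀ i j, D i (y j) = if i = j then 1 else 0 := fun i j => by
    split_ifs with h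
    · subst h; exact hD' i
    · exact (D' i).map_algebraMap (⟨y j, subset_adjoin _ _ ⟨j, Ne.symm h, rfl⟩⟩ : kk F y i)
  have hU : ∀ (d : Derivation F L L) x, d x = ∑ j, d (y j) * D j x := fun d x => by
    have hs : ∀ x, (∑ j, d (y j) • D j) x = ∑ j, d (y j) * D j x := fun x => by
      have := congrFun (map_sum Derivation.coeFnAddMonoidHom (fun j => d (y j) • D j) Finset.univ) x
      rw [Finset.sum_apply] at this
      exact this
    have := der_zero y (d - ∑ j, d (y j) • D j) (fun j => by simp [hs, hD]) x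
    simpa [hs, sub_eq_zero] using this
  have hy0 : ∀ i, y i ≠ 0 := fun i e => kk_tr hy i (e ▸ isAlgebraic_zero)
  choose V1 a1 b1 c1 d1 using fun i => one (k := kk F y i) (y i) (D i) (D' i).map_algebraMap
    (by simp [hD])
  choose V2 a2 b2 c2 d2 using fun i => one (k := kk F y i) (y i)⁻¹ (D i) (D' i).map_algebraMap
    (by simp [Derivation.leibniz_inv, hD, hy0])
  obtain ⟨s, hs, hs'⟩ := (Submodule.fg_span_iff_fg_span_finset_subset _).1
    (span_fg y δ hδ D hD hU V hV {ξ | ξ ≠ 0 ∧ δ ξ / ξ ∈ M} fun ξ hξ => ⟨hξ.1, hVM ξ hξ.1 hξ.2⟩)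
  choose g hg hg' using fun w : s => hs w.2
  have key : ∀ (i : Fin n) (U : Set (Valuation L ℤᵐ⁰)),
      (∀ v ∈ U, ∀ a : kk F y i, v (algebraMap _ L a) ≤ 1) →
      (∀ ξ ≠ 0, {v ∈ U | v ξ ≠ 1}.Finite) →
      {v ∈ U | ¬ ∃ w, ∀ ξ ≠ 0, (v (w * (D i ξ / ξ)) < 1 ↔ v ξ = 1)}.Finite →
      ∃ S : Set (Valuation L ℤᵐ⁰), S.Finite ∧ ∀ ξ ≠ 0, δ ξ / ξ ∈ M → (∀ v ∈ S, v ξ = 1) →
        ∀ v ∈ U, v ξ ≤ 1 := by
    intro i U a c d
    refine ⟨_, d.union (Set.finite_iUnion fun w : s => c _ (hg w).1), fun ξ hξ hm h v hv => ?_⟩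
    by_contra hn
    have hn' := mt (h v) (fun e => hn e.le)
    simp only [Set.mem_union, Set.mem_setOf_eq, hv, true_and, not_or, not_not,
      Set.mem_iUnion] at hn'
    obtain ⟨⟨w, hw⟩, h2⟩ := hn'
    simp only [not_exists, not_not] at h2
    refine hn ((hw ξ hξ).1 ?_).le
    have : (fun i => D i ξ / ξ) ∈ Submodule.span F (s : Set (Fin n → L)) :=
      hs' ▸ Submodule.subset_span ⟨ξ, ⟨hξ, hm⟩, rfl⟩
    change v (w * (fun i => D i ξ / ξ) i) < 1
    generalize (fun i => D i ξ / ξ) = z at this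
    induction this using Submodule.span_induction with
    | mem z hz =>
      have := (hw _ (hg ⟨z, hz⟩).1).2 (h2 ⟨z, hz⟩)
      rwa [show D i (g ⟨z, hz⟩) / g ⟨z, hz⟩ = z i from congrFun (hg' ⟨z, hz⟩) i] at this
    | zero => simp
    | add a b _ _ ha hb => rw [Pi.add_apply, mul_add]; exact v.map_add_lt ha hb
    | smul c z _ hz =>
      rw [Pi.smul_apply, Algebra.smul_def, mul_left_comm, map_mul, mul_comm]
      exact mul_lt_one_of_lt_of_le hz (a v hv (algebraMap F _ c))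
  choose S1 e1 h1 using fun i => key i (V1 i) (a1 i) (c1 i) (d1 i)
  choose S2 e2 h2 using fun i => key i (V2 i) (a2 i) (c2 i) (d2 i)
  let S : Set (Valuation L ℤᵐ⁰) := ⋃ i, S1 i ∪ S2 i
  haveI : Finite S := (Set.finite_iUnion fun i => (e1 i).union (e2 i)).to_subtype
  have fin : ∀ ξ ≠ 0, δ ξ / ξ ∈ M → (∀ v ∈ S, v ξ = 1) → δ ξ = 0 := by
    intro ξ hξ hm h
    rw [hU]
    refine Finset.sum_eq_zero fun i _ => mul_eq_zero_of_right _ (der_int (D' i) ?_)
    exact sep (y i) (kk_tr hy i) ξ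
      (b1 i ξ (h1 i ξ hξ hm fun v hv => h v (Set.mem_iUnion.2 ⟨i, Or.inl hv⟩)))
      (b2 i ξ (h2 i ξ hξ hm fun v hv => h v (Set.mem_iUnion.2 ⟨i, Or.inr hv⟩)))
  let P : AddSubgroup ((S → ℤ) × L) :=
    { carrier := {p | ∃ ξ ≠ 0, δ ξ / ξ ∈ M ∧ p = (fun v : S => log (v.1 ξ), δ ξ / ξ)}
      zero_mem' := ⟨1, one_ne_zero, by simp, by ext <;> simp⟩
      add_mem' := by
        rintro _ _ ⟨a, ha, ha', rfl⟩ ⟨b, hb, hb', rfl⟩
        have : δ (a * b) / (a * b) = δ a / a + δ b / b := by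
          rw [δ.leibniz]; simp only [smul_eq_mul]; field_simp; ring
        refine ⟨a * b, mul_ne_zero ha hb, this ▸ add_mem ha' hb', ?_⟩
        ext v
        · simp [log_mul, ha, hb]
        · simp [← this]
      neg_mem' := by
        rintro _ ⟨a, ha, ha', rfl⟩
        have : δ a⁻¹ / a⁻¹ = -(δ a / a) := by
          rw [δ.leibniz_inv]; simp only [smul_eq_mul]; field_simp
        refine ⟨a⁻¹, inv_ne_zero ha, this ▸ neg_mem ha', ?_⟩
        ext v
        · simp
        · simp [← this] }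
  refine ⟨P.toIntSubmodule.map (LinearMap.snd ℤ _ _), Submodule.FG.map _ ?_,
    fun ξ hξ hm => ⟨_, ⟨ξ, hξ, hm, rfl⟩, rfl⟩⟩
  refine Submodule.fg_of_fg_map_of_fg_inf_ker (LinearMap.fst ℤ _ _) (IsNoetherian.noetherian _) ?_
  convert Submodule.fg_bot
  rw [eq_bot_iff]
  rintro _ ⟨⟨ξ, hξ, hm, rfl⟩, h⟩
  have h' : (fun v : S => log (v.1 ξ)) = 0 := h
  have : δ ξ = 0 := fin ξ hξ hm fun v hv => by
    have h0 : v ξ ≠ 0 := by simpa using hξ
    rw [← exp_log h0, show log (v ξ) = 0 from congrFun h' ⟨v, hv⟩, exp_zero]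
  simp [h', this]

end Pool.Agent.H.MP_26f537_al
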