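import Pool.Agent.H.MP_26f537_al.G

set_option maxHeartbeats 400000

namespace Pool.Agent.H.MP_26f537_al

open IntermediateField IntermediateField.algebraAdjoinAdjoin

theorem core2 {F L : Type} [Field F] [CharZero F] [Field L] [Algebra F L] (δ : Derivation F L L)
    (hδ : ∀ a, δ a = 0 → a ∈ Set.range (algebraMap F L)) (B : Subalgebra F L)
    [Algebra.FiniteType F B] (hB : ∀ x : L, ∃ a ∈ B, ∃ b ∈ B, x = a / b) :
    ∃ H : Submodule ℤ L, H.FG ∧ ∀ ξ ≠ 0, δ ξ / ξ ∈ B → δ ξ / ξ ∈ H := by
  classical
  obtain ⟨n, g, hg, hf⟩ := exists_finite_inj_algHom_of_fg F B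
  let y : Fin n → L := fun i => g (MvPolynomial.X i)
  have e : MvPolynomial.aeval y = B.val.comp g := by ext i; simp [y]
  have hy : AlgebraicIndependent F y := by
    rw [algebraicIndependent_iff_injective_aeval, e]
    exact Subtype.val_injective.comp hg
  have m1 : ∀ p, (g p : L) ∈ Algebra.adjoin F (Set.range y) := fun p =>
    (Algebra.adjoin_range_eq_range_aeval F y).ge ⟨p, by rw [e]; rfl⟩
  letI := g.toRingHom.toAlgebra
  haveI : Module.Finite (MvPolynomial (Fin n) F) B := hf
  obtain ⟨s, hs⟩ := Module.Finite.fg_top (R := MvPolynomial (Fin n) F) (M := B)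
  let φ : MvPolynomial (Fin n) F →+* Algebra.adjoin F (Set.range y) :=
    (B.val.comp g).toRingHom.codRestrict _ m1
  have hi : ∀ b : B, IsIntegral (Algebra.adjoin F (Set.range y)) (b : L) := fun b =>
    (Algebra.IsIntegral.isIntegral (R := MvPolynomial (Fin n) F) b).map_of_comp_eq φ
      B.val.toRingHom (by ext <;> rfl)
  let t : Set L := Subtype.val '' (s : Set B)
  have ht : t.Finite := s.finite_toSet.image _
  have hM : ∀ b : B, (b : L) ∈ Submodule.span (Algebra.adjoin F (Set.range y)) t := fun b => by
    have hb : b ∈ Submodule.span (MvPolynomial (Fin n) F) (s : Set B) := hs ▸ Submodule.mem_top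
    induction hb using Submodule.span_induction with
    | mem x hx => exact Submodule.subset_span ⟨x, hx, rfl⟩
    | zero => simp
    | add a b _ _ ha hb => exact add_mem ha hb
    | smul c a _ ha => exact Submodule.smul_mem _ (φ c) ha
  haveI : FiniteDimensional (adjoin F (Set.range y)) L := by
    haveI := ht.to_subtype
    have h1 : FiniteDimensional (adjoin F (Set.range y)) (adjoin (adjoin F (Set.range y)) t) :=
      finiteDimensional_adjoin (by rintro _ ⟨b, -, rfl⟩; exact (hi b).tower_top)
    have h2 : ∀ x ∈ Submodule.span (Algebra.adjoin F (Set.range y)) t,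
        x ∈ adjoin (adjoin F (Set.range y)) t := fun x hx => by
      induction hx using Submodule.span_induction with
      | mem x hx => exact subset_adjoin _ _ hx
      | zero => simp
      | add a b _ _ ha hb => exact add_mem ha hb
      | smul c a _ ha =>
        exact mul_mem (IntermediateField.algebraMap_mem _
          (algebraMap _ (adjoin F (Set.range y)) c)) ha
    have h3 : adjoin (adjoin F (Set.range y)) t = ⊤ := eq_top_iff.2 fun x _ => by
      obtain ⟨a, ha, b, hb, rfl⟩ := hB x
      exact div_mem (h2 _ (hM ⟨a, ha⟩)) (h2 _ (hM ⟨b, hb⟩))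
    rw [h3] at h1
    exact topEquiv.toLinearEquiv.finiteDimensional
  obtain ⟨H, h1, h2⟩ := core hy δ hδ _ (Submodule.fg_span ht) fun x hx => by
    induction hx using Submodule.span_induction with
    | mem x hx => obtain ⟨b, -, rfl⟩ := hx; exact hi b
    | zero => exact isIntegral_zero
    | add a b _ _ ha hb => exact ha.add hb
    | smul c a _ ha => exact ha.smul c
  exact ⟨H, h1, fun ξ hξ hm => h2 ξ hξ (hM ⟨_, hm⟩)⟩

theorem main (K R L : Type) [Field K] [CharZero K] [CommRing R] [IsDomain R] [Algebra K R]
    [Algebra.FiniteType K R] [Field L] [Algebra R L] [IsFractionRing R L] [Algebra K L]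
    [IsScalarTower K R L] (δ : Derivation K R R) :
    (AddSubgroup.closure
      {r : R | ∃ a b : R, a ≠ 0 ∧ b ≠ 0 ∧ δ a * b - a * δ b = r * a * b}).FG := by
  haveI : Algebra.FormallyEtale R L := Algebra.FormallyEtale.of_isLocalization (nonZeroDivisors R)
  obtain ⟨d, hd⟩ := ext_der ((Algebra.linearMap R L).compDer δ)
  have hd' : ∀ r, d (algebraMap R L r) = algebraMap R L (δ r) := hd
  let F : IntermediateField K L :=
    { carrier := {x | d x = 0}
      mul_mem' := fun {a b} (ha : d a = 0) (hb : d b = 0) => show d (a * b) = 0 by simp [ha, hb]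
      add_mem' := fun {a b} (ha : d a = 0) (hb : d b = 0) => show d (a + b) = 0 by simp [ha, hb]
      algebraMap_mem' := fun a => d.map_algebraMap a
      inv_mem' := fun a (ha : d a = 0) => show d a⁻¹ = 0 by simp [d.leibniz_inv, ha] }
  haveI : CharZero F := algebraRat.charZero _
  obtain ⟨s, hs⟩ := Algebra.FiniteType.out (R := K) (A := R)
  let B := Algebra.adjoin F (algebraMap R L '' s)
  haveI : Algebra.FiniteType F B := Algebra.FiniteType.adjoin_of_finite (s.finite_toSet.image _)
  have hR : ∀ r, algebraMap R L r ∈ B := fun r => by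
    have hr : r ∈ Algebra.adjoin K (s : Set R) := hs ▸ Algebra.mem_top
    induction hr using Algebra.adjoin_induction with
    | mem x hx => exact Algebra.subset_adjoin ⟨x, hx, rfl⟩
    | algebraMap a =>
      rw [← IsScalarTower.algebraMap_apply]
      exact B.algebraMap_mem (algebraMap K F a)
    | add a b _ _ ha hb => rw [map_add]; exact add_mem ha hb
    | mul a b _ _ ha hb => rw [map_mul]; exact mul_mem ha hb
  obtain ⟨H, h1, h2⟩ := core2 (toK F d fun a => a.2) (fun a ha => ⟨⟨a, ha⟩, rfl⟩) B fun x => by
    obtain ⟨a, b, -, rfl⟩ := IsFractionRing.div_surjective (A := R) x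
    exact ⟨_, hR a, _, hR b, rfl⟩
  have inj := IsFractionRing.injective R L
  rw [← AddSubgroup.toIntSubmodule_toAddSubgroup (AddSubgroup.closure _),
    ← Submodule.fg_iff_addSubgroup_fg]
  refine Submodule.fg_of_fg_map_injective (algebraMap R L).toAddMonoidHom.toIntLinearMap inj
    (h1.of_le ?_)
  rw [Submodule.map_le_iff_le_comap]
  refine (AddSubgroup.closure_le (H.comap _).toAddSubgroup).2 ?_
  rintro r ⟨a, b, ha, hb, h⟩
  have ha' : algebraMap R L a ≠ 0 := by simpa using ha
  have hb' : algebraMap R L b ≠ 0 := by simpa using hb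
  have e : d (algebraMap R L a / algebraMap R L b) / (algebraMap R L a / algebraMap R L b) =
      algebraMap R L r := by
    have := congrArg (algebraMap R L) h
    simp only [map_mul, map_sub] at this
    rw [d.leibniz_div, hd', hd']
    simp only [smul_eq_mul]
    field_simp
    linear_combination this
  have := h2 _ (div_ne_zero ha' hb') (by rw [toK_ap, e]; exact hR r)
  rwa [toK_ap, e] at this

end Pool.Agent.H.MP_26f537_al
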